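import Pool.Graph.R_seed8.Results.MP_3d425c_gt.BorromeanSurgery
import Pool.Agent.H828.BorEll

set_option autoImplicit false

/-!
# Cyclic covers of fixed degree of surgeries on the Borromean rings

`SurgeryGroup p q` is the fundamental group of the closed 3-manifold (orbifold, if some `p i` and
`q i` are not coprime) obtained by surgery with the slopes `p j / q j` on the three components of
the Borromean rings (the definition of the library module `BorromeanSurgery`).  Let `n` be a
divisor of `p i`.  The kernel of the map to the cyclic group of order `n` that maps the meridians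
of the component `i` to the generator and the other meridians to zero is the fundamental group of
an `n`-fold cyclic cover.  For `p i = n`, `q i = 0` it is the `n`-fold cyclic cover, branched along
the component `i`, of the surgery on the two other components.

We prove that this group has a nontrivial homomorphism to the left-orderable group of increasing
homeomorphisms of the line if `r, s` are the slopes of the two other components, `0 < s < 1` and
`r > 0`, `n ≥ 8`, or `r > 1`, `n ≥ 6`, or `r > 2`, `n ≥ 4`, or `r s ≥ 3`, `n = 3`, or `r s ≥ 4`,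
`n = 2`.  So for `n ≥ 8` there is no restriction on the product `r s`, for `r s ≥ 4` there is none
on `n ≥ 2`, and there is none on `q i`.  For `r = 1 / a`, `s = 1 / b` the component `i` becomes a
genus one 2-bridge knot of determinant `4 a b - 1`, and the group is the group of a filling of the
`n`-fold cyclic cover of its exterior with arbitrary slope.

Idea.  The chains of order automorphisms of the module `LongChainLinks`, for alternating slopes,
give sequences `X, Y` with period `n`, such that `X m` commutes with `Y m` and `Y (m - 1)`, and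
`X m ^ p * (Y m * (Y (m - 1))⁻¹) ^ q = 1`, `Y m ^ p' * ((X (m + 1))⁻¹ * X m) ^ q' = 1`.  Together
with the shift they satisfy the relations of the surgery in the wreath product with `Z/n`; the
shift is the image of the meridian of the component `i`, and the longitude has a trivial image.
For `n = 2, 3` the chains consist of a central element and lifts of rotations of the hyperbolic
plane whose product is conjugate to a given rotation.
-/

namespace Pool.Agent.Results.MP_3d425c_gt.BorromeanFixedDegreeCovers

open Pool.Agent.H828.Cov (degree_rel)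
open Pool.Agent.H828.BorAlt (exists_alt ChainAlt)
open Pool.Agent.H828.BorEll (chain2 chain3)
open Pool.Agent.Results.MP_3d425c_gt.BorromeanSurgery (SurgeryGroup)

/-- The map from the group of the surgery to the cyclic group of order `n`, for a divisor `n` of
`p i`, that maps the meridians of the component `i` to the generator and the meridians of the
other components to zero. -/
def degree (p q : Fin 3 → ℤ) (i : Fin 3) (n : ℕ) (h : (n : ℤ) ∣ p i) :
    SurgeryGroup p q →* Multiplicative (ZMod n) :=
  PresentedGroup.toGroup (f := fun a : Fin 3 × Bool =>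
    Multiplicative.ofAdd (if a.1 = i then (1 : ZMod n) else 0)) (degree_rel p q i n h)

/-- The slope of the component `j`, multiplied with the sign `δ`. -/
noncomputable def slope (p q : Fin 3 → ℤ) (δ : ℤˣ) (j : Fin 3) : ℝ :=
  (((δ : ℤ) * p j : ℤ) : ℝ) / (q j : ℤ)

/-- The conditions on the degree `n` and the slopes `r, s`. -/
def Large (n : ℕ) (r s : ℝ) : Prop :=
  0 < s ∧ s < 1 ∧ ((0 < r ∧ 8 ≤ n) ∨ (1 < r ∧ 6 ≤ n) ∨ (2 < r ∧ 4 ≤ n) ∨
    (3 ≤ r * s ∧ n = 3) ∨ (4 ≤ r * s ∧ n = 2))

theorem exists_chain {n : ℕ} {a a' b b' : ℤ} (h : Large n ((a : ℝ) / a') ((b : ℝ) / b')) :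
    ∃ F, ChainAlt n a a' b b' F := by
  obtain ⟨s0, s1, h⟩ := h
  rcases h with h | h | h | ⟨h, rfl⟩ | ⟨h, rfl⟩
  · exact exists_alt ⟨s0, s1, Or.inl h⟩
  · exact exists_alt ⟨s0, s1, Or.inr (Or.inl h)⟩
  · exact exists_alt ⟨s0, s1, Or.inr (Or.inr h)⟩
  · exact chain3 (by by_contra hc; push Not at hc; nlinarith) s0 s1 h
  · exact chain2 (by by_contra hc; push Not at hc; nlinarith) s0 s1 h

/-- **Cyclic covers of fixed degree of surgeries on the Borromean rings.** -/
theorem result (p q : Fin 3 → ℤ) (i j k : Fin 3) (hij : i ≠ j) (hik : i ≠ k) (hjk : j ≠ k)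
    (n : ℕ) (h : (n : ℤ) ∣ p i) (δ : ℤˣ) (hn : Large n (slope p q δ j) (slope p q δ k)) :
    ∃ (f : (degree p q i n h).ker →* (ℝ ≃o ℝ)) (γ : (degree p q i n h).ker), f γ ≠ 1 := by
  have hn4 : 2 ≤ n := by
    rcases hn.2.2 with h | h | h | h | h <;> omega
  have : NeZero n := ⟨by omega⟩
  have hD : ∀ a : Fin 3 × Bool, degree p q i n h (PresentedGroup.of a) =
      Multiplicative.ofAdd (if a.1 = i then (1 : ZMod n) else 0) := fun a =>
    PresentedGroup.toGroup.of _
  obtain ⟨F, hF⟩ := exists_chain (n := n) (a := δ * p j) (a' := q j) (b := δ * p k) (b' := q k) hn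
  have hcase : (j = i + 1 ∧ k = i + 2) ∨ (j = i + 2 ∧ k = i + 1) := by
    revert hij hik hjk
    exact (by decide : ∀ i j k : Fin 3, i ≠ j → i ≠ k → j ≠ k →
      (j = i + 1 ∧ k = i + 2) ∨ (j = i + 2 ∧ k = i + 1)) i j k
  rcases hcase with ⟨rfl, rfl⟩ | ⟨rfl, rfl⟩
  · obtain ⟨X, Y, hXY, hne⟩ := Pool.Agent.H828.BorWr.exists_XY hF.ev hF.od hF.per hF.ne
    exact Pool.Agent.H828.BorWr.exists_ker h hXY hne _ hD
  · have hF' := hF.shift
    obtain ⟨X, Y, hXY, hne⟩ := Pool.Agent.H828.BorWr.exists_XY hF'.ev hF'.od hF'.per hF'.ne
    exact Pool.Agent.H828.BorWr.exists_ker h hXY hne _ hD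

end Pool.Agent.Results.MP_3d425c_gt.BorromeanFixedDegreeCovers
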