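import Pool.Graph.R_seed8.Results.MP_3d425c_gt.BorromeanSurgery
import Pool.Agent.H828.BorCov

set_option autoImplicit false

/-!
# Cyclic covers of surgeries on the Borromean rings whose fundamental group acts on the line

`SurgeryGroup p q` is the fundamental group of the closed 3-manifold (orbifold, if some `p i` and
`q i` are not coprime) obtained by surgery with the slopes `p j / q j` on the three components of
the Borromean rings (the definition of the library module `BorromeanSurgery`).  Let `n` be a
divisor of `p i`.  The kernel of the map to the cyclic group of order `n` that maps the meridians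
of the component `i` to the generator and the other meridians to zero is the fundamental group of
an `n`-fold cyclic cover.  For `p i = n`, `q i = 0` it is the `n`-fold cyclic cover, branched along
the component `i`, of the surgery on the two other components; this manifold is also a surgery on
the chain link with `2 n` components, with alternating slopes.

We prove that this group has a nontrivial homomorphism to the left-orderable group of increasing
homeomorphisms of the line if the slopes `r, s` of the two other components satisfy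
`0 < r s < 4` and an integer lies strictly between `n * q i / p i` and `± n * θ`, where
`θ = arcsin (√(r s) / 2) / π` and the sign is the sign of `r`.

Idea.  The one-parameter families of representations in `PSL(2, R)` of the group of the Borromean
rings of the module `BorromeanSurgeryOrders` satisfy the surgery relations of two components; the
meridian of the third is a rotation.  Along the family the image of `meridian ^ p * longitude ^ q`
of the third component in the universal covering group is a translation by a length which varies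
continuously between the two bounds of the condition.  If it is a multiple of the
translation by `π`, then it is central, and the lift can be corrected on the kernel of
the degree map.
-/

namespace Pool.Agent.Results.MP_3d425c_gt.BorromeanSurgeryCovers

open Pool.Agent.H828.Bor Pool.Agent.H828.Lift Pool.Agent.H828.Cov
open Pool.Agent.Results.MP_3d425c_gt.BorromeanSurgery (arc longitude relators SurgeryGroup)

/-- The map from the group of the surgery to the cyclic group of order `n`, for a divisor `n` of
`p i`, that maps the meridians of the component `i` to the generator and the meridians of the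
other components to zero. -/
def degree (p q : Fin 3 → ℤ) (i : Fin 3) (n : ℕ) (h : (n : ℤ) ∣ p i) :
    SurgeryGroup p q →* Multiplicative (ZMod n) :=
  PresentedGroup.toGroup (f := fun a : Fin 3 × Bool =>
    Multiplicative.ofAdd (if a.1 = i then (1 : ZMod n) else 0)) (degree_rel p q i n h)

/-- The integer `c` lies strictly between the real numbers `a` and `b`. -/
def Between (a b : ℝ) (c : ℤ) : Prop := (a < c ∧ (c : ℝ) < b) ∨ (b < c ∧ (c : ℝ) < a)

/-- **Cyclic covers of surgeries on the Borromean rings.** -/
theorem result (p q : Fin 3 → ℤ) (i : Fin 3) (n : ℕ) (hn : 0 < n) (h : (n : ℤ) ∣ p i)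
    (hp : p i ≠ 0) (r s : ℝ) (hr : r = p (i + 1) / q (i + 1)) (hs : s = p (i + 2) / q (i + 2))
    (h0 : 0 < r * s) (h4 : r * s < 4) (c : ℤ)
    (hc : Between (n * q i / p i) (SignType.sign r * (n * (Real.arcsin (√(r * s) / 2) / Real.pi))) c) :
    ∃ (f : (degree p q i n h).ker →* (ℝ ≃o ℝ)) (γ : (degree p q i n h).ker), f γ ≠ 1 := by
  have hpi := Real.pi_pos
  obtain ⟨l, hl⟩ := h
  have hl0 : (l : ℝ) ≠ 0 := by
    intro h1
    apply hp
    rw [hl, (by exact_mod_cast h1 : l = 0), mul_zero]
  have hn0 : (n : ℝ) ≠ 0 := by exact_mod_cast hn.ne'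
  have hpl : (p i : ℝ) = n * l := by exact_mod_cast hl
  have hq1 : (q (i + 1) : ℝ) ≠ 0 := by
    intro h1
    rw [h1, div_zero] at hr
    rw [hr, zero_mul] at h0
    exact lt_irrefl _ h0
  have hq2 : (q (i + 2) : ℝ) ≠ 0 := by
    intro h1
    rw [h1, div_zero] at hs
    rw [hs, mul_zero] at h0
    exact lt_irrefl _ h0
  have hD : ∀ a : Fin 3 × Bool, degree p q i n ⟨l, hl⟩ (PresentedGroup.of a) =
      Multiplicative.ofAdd (if a.1 = i then (1 : ZMod n) else 0) := fun a =>
    PresentedGroup.toGroup.of _
  -- reduction to the existence of a representation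
  have key : ∀ c' : ℤ, (∃ x y w : H, x ≠ 1 ∧ x * z = z * x ∧ y * z = z * y ∧ w * z = z * w ∧
      Tri x y w (p (i + 1)) (q (i + 1)) (p (i + 2)) (q (i + 2)) 0 0 ∧
      w ^ p i * lon x y ^ q i = z ^ (c' * l)) →
      ∃ (f : (degree p q i n ⟨l, hl⟩).ker →* (ℝ ≃o ℝ)) (γ : (degree p q i n ⟨l, hl⟩).ker),
        f γ ≠ 1 := by
    rintro c' ⟨x, y, w, hx, cx, cy, cw, ht, hw⟩
    obtain ⟨u, hu1, hu2, hu3⟩ : ∃ u : Fin 3 → H, u (i + 1) = x ∧ u (i + 2) = y ∧ u i = w := by
      fin_cases i
      · exact ⟨![w, x, y], rfl, rfl, rfl⟩
      · exact ⟨![y, w, x], rfl, rfl, rfl⟩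
      · exact ⟨![x, y, w], rfl, rfl, rfl⟩
    have hi12 : ∀ j : Fin 3, j = i ∨ j = i + 1 ∨ j = i + 2 := fun j =>
      (by decide : ∀ i j : Fin 3, j = i ∨ j = i + 1 ∨ j = i + 2) i j
    have e11 : i + 1 + 1 = i + 2 := (by decide : ∀ i : Fin 3, i + 1 + 1 = i + 2) i
    have e12 : i + 1 + 2 = i := (by decide : ∀ i : Fin 3, i + 1 + 2 = i) i
    have e21 : i + 2 + 1 = i := (by decide : ∀ i : Fin 3, i + 2 + 1 = i) i
    have e22 : i + 2 + 2 = i + 1 := (by decide : ∀ i : Fin 3, i + 2 + 2 = i + 1) i
    have n1 : i + 1 ≠ i := (by decide : ∀ i : Fin 3, i + 1 ≠ i) i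
    have n2 : i + 2 ≠ i := (by decide : ∀ i : Fin 3, i + 2 ≠ i) i
    refine exists_cov hn (u := u) (i := i) (l := l) (c := c') ?_ ?_ ?_ hl
      (degree p q i n ⟨l, hl⟩) hD n1 (by rw [hu1]; exact hx)
    · intro j
      rcases hi12 j with rfl | rfl | rfl
      · rw [hu3]; exact cw
      · rw [hu1]; exact cx
      · rw [hu2]; exact cy
    · intro j
      rcases hi12 j with rfl | rfl | rfl
      · rw [hu1, hu2, hu3]; exact ht.cz
      · rw [e11, e12, hu1, hu2, hu3]; exact ht.cx
      · rw [e21, e22, hu1, hu2, hu3]; exact ht.cy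
    · intro j
      rcases hi12 j with rfl | rfl | rfl
      · rw [hu1, hu2, hu3, if_pos rfl]; exact hw
      · rw [e11, e12, hu1, hu2, hu3, if_neg n1]; exact ht.sx
      · rw [e21, e22, hu1, hu2, hu3, if_neg n2]; exact ht.sy
  have e0 : √(r / 2 * (s / 2)) = √(r * s) / 2 := by
    rw [show r / 2 * (s / 2) = r * s / 2 ^ 2 by ring, Real.sqrt_div h0.le,
      Real.sqrt_sq (by norm_num)]
  rcases lt_trichotomy r 0 with hr0 | hr0 | hr0
  · -- negative slopes
    have hs0 : s < 0 := by
      by_contra hcon
      push Not at hcon
      nlinarith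
    rw [sign_neg hr0] at hc
    simp only [SignType.coe_neg_one] at hc
    have hy : ((-(n * q i / p i) : ℝ) * Real.pi < -(c : ℝ) * Real.pi ∧
        -(c : ℝ) * Real.pi < n * Real.arcsin √(-r / 2 * (-s / 2))) ∨
        (n * Real.arcsin √(-r / 2 * (-s / 2)) < -(c : ℝ) * Real.pi ∧
        -(c : ℝ) * Real.pi < (-(n * q i / p i) : ℝ) * Real.pi) := by
      have e1 : √(-r / 2 * (-s / 2)) = √(r * s) / 2 := by
        rw [show -r / 2 * (-s / 2) = r / 2 * (s / 2) by ring, e0]
      rw [e1]
      have e2 : (n : ℝ) * Real.arcsin (√(r * s) / 2) =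
        (n * (Real.arcsin (√(r * s) / 2) / Real.pi)) * Real.pi := by field_simp
      rw [e2]
      rcases hc with ⟨h1, h2⟩ | ⟨h1, h2⟩
      · right
        constructor <;> apply mul_lt_mul_of_pos_right _ hpi <;> linarith
      · left
        constructor <;> apply mul_lt_mul_of_pos_right _ hpi <;> linarith
    obtain ⟨P, Q, g, η, hP, hg, ⟨R⟩⟩ := Pool.Agent.H828.BorTanh.exists_rep_cov
      (m := -r / 2) (n := -s / 2) (by linarith) (by linarith) (by nlinarith) hy
    obtain ⟨x, y, w, hx, cx, cy, cw, ht, hw⟩ := tri_cov R (p0 := -p (i + 1)) (q0 := q (i + 1))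
      (p1 := -p (i + 2)) (q1 := q (i + 2)) (p2 := -p i) (q2 := q i) (j := c * l)
      (by rw [hr]; push_cast; field_simp) (by rw [hs]; push_cast; field_simp)
      (by
        have e3 : (-(n * q i / p i) : ℝ) = -(q i / l) := by
          rw [hpl]; field_simp
        rw [e3] at hg
        push_cast
        rw [hpl]
        field_simp at hg
        linear_combination -hg) hP
    obtain ⟨ht', hw'⟩ := mirror' ht hw (z_pow_comm cy _)
    rw [neg_neg, neg_neg] at ht'
    rw [neg_neg] at hw'
    refine key (-c) ⟨x, y⁻¹, y * w * y⁻¹, hx, cx, ?_, ?_, ht', ?_⟩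
    · exact (show Commute y z from cy).inv_left.eq
    · exact (((show Commute y z from cy).mul_left (show Commute w z from cw)).mul_left
        (show Commute y z from cy).inv_left).eq
    · rw [hw', ← zpow_neg]; congr 1; ring
  · rw [hr0, zero_mul] at h0
    exact absurd h0 (lt_irrefl _)
  · -- positive slopes
    have hs0 : 0 < s := (pos_iff_pos_of_mul_pos h0).mp hr0
    rw [sign_pos hr0] at hc
    simp only [SignType.coe_one, one_mul] at hc
    have hy : ((n * q i / p i : ℝ) * Real.pi < (c : ℝ) * Real.pi ∧
        (c : ℝ) * Real.pi < n * Real.arcsin √(r / 2 * (s / 2))) ∨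
        (n * Real.arcsin √(r / 2 * (s / 2)) < (c : ℝ) * Real.pi ∧
        (c : ℝ) * Real.pi < (n * q i / p i : ℝ) * Real.pi) := by
      rw [e0]
      have e2 : (n : ℝ) * Real.arcsin (√(r * s) / 2) =
        (n * (Real.arcsin (√(r * s) / 2) / Real.pi)) * Real.pi := by field_simp
      rw [e2]
      rcases hc with ⟨h1, h2⟩ | ⟨h1, h2⟩
      · left
        constructor <;> apply mul_lt_mul_of_pos_right _ hpi <;> linarith
      · right
        constructor <;> apply mul_lt_mul_of_pos_right _ hpi <;> linarith
    obtain ⟨P, Q, g, η, hP, hg, ⟨R⟩⟩ := Pool.Agent.H828.BorTanh.exists_rep_cov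
      (m := r / 2) (n := s / 2) (by linarith) (by linarith) (by nlinarith) hy
    obtain ⟨x, y, w, hx, cx, cy, cw, ht, hw⟩ := tri_cov R (p0 := p (i + 1)) (q0 := q (i + 1))
      (p1 := p (i + 2)) (q1 := q (i + 2)) (p2 := p i) (q2 := q i) (j := c * l)
      (by rw [hr]; field_simp) (by rw [hs]; field_simp)
      (by
        have e3 : (n * q i / p i : ℝ) = q i / l := by
          rw [hpl]; field_simp
        rw [e3] at hg
        push_cast
        rw [hpl]
        field_simp at hg
        linear_combination hg) hP
    exact key c ⟨x, y, w, hx, cx, cy, cw, ht, hw⟩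

end Pool.Agent.Results.MP_3d425c_gt.BorromeanSurgeryCovers
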