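import Pool.Graph.R_seed8.Results.MP_3d425c_gt.BorromeanSurgery
import Pool.Agent.H828.BorGrp

set_option autoImplicit false

/-!
# Surgeries on the Borromean rings whose fundamental group acts on the line

`SurgeryGroup p q` is the fundamental group of the closed 3-manifold obtained by surgery with the
slopes `p i / q i` on the three components of the Borromean rings (the definition of the library
module `BorromeanSurgery`, which shows that this group is not left-orderable, and has no nontrivial
homomorphism to a left-orderable group, if all slopes are at least `1` or all are at most `-1`).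

Here we prove the existence of nontrivial homomorphisms to the left-orderable group of increasing
homeomorphisms of the line for a region of slopes: two slopes are positive with product less
than `4` and the third is less than `1`, or the mirror image of this.

Idea.  The group of the Borromean rings is a subgroup of index eight in the group generated by six
involutions `g 1, ..., g 6`, where `g i` and `g j` commute unless `i` and `j` are neighbours in the
cyclic order (the reflections in the faces of a cube with three ideal edges).  Six vectors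
in the quadratic space of `2 x 2` matrices with the corresponding Gram matrix depend on three real
parameters, and give a three-parameter family of representations in `PSL(2, R)`.  In the part of
the family that is used, two meridians are hyperbolic and the third is elliptic.  The three surgery
conditions are reduced to one equation in one real unknown, which is solved with the intermediate
value theorem.  The representations are lifted to the universal covering group, and it is shown
that the lifted longitudes have the correct translation numbers.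
-/

namespace Pool.Agent.Results.MP_3d425c_gt.BorromeanSurgeryOrders

open Pool.Agent.H828.Bor Pool.Agent.H828.Lift
open Pool.Agent.Results.MP_3d425c_gt.BorromeanSurgery (arc longitude relators SurgeryGroup)

/-- The region of slopes: for some cyclic numbering of the components the first two slopes are
positive, their product is less than `4` and the third slope is less than `1`; or the same with
all signs reversed. -/
def Region (r : Fin 3 → ℚ) : Prop :=
  ∃ i : Fin 3, (0 < r i ∧ 0 < r (i + 1) ∧ r i * r (i + 1) < 4 ∧ r (i + 2) < 1) ∨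
    (r i < 0 ∧ r (i + 1) < 0 ∧ r i * r (i + 1) < 4 ∧ -1 < r (i + 2))

/-- The images of the arcs. -/
def img {G : Type} [Group G] (u : Fin 3 → G) : Fin 3 × Bool → G
  | (i, true) => u i
  | (i, false) => u (i + 2) * u i * (u (i + 2))⁻¹

theorem hom_aux {G : Type} [Group G] {x y z : G} {a a' : ℤ} (hc : x * lon y z = lon y z * x)
    (hs : x ^ a * lon y z ^ a' = 1) :
    z⁻¹ * (z * x * z⁻¹) * z * x⁻¹ = 1 ∧
    (y * z * y⁻¹) * x * (y * z * y⁻¹)⁻¹ * (z * x * z⁻¹)⁻¹ = 1 ∧
    (z * x * z⁻¹) ^ a * (z * (y * z * y⁻¹)⁻¹) ^ a' = 1 := by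
  refine ⟨by group, ?_, ?_⟩
  · calc (y * z * y⁻¹) * x * (y * z * y⁻¹)⁻¹ * (z * x * z⁻¹)⁻¹
        = (y * z * y⁻¹) * (x * lon y z) * x⁻¹ * z⁻¹ := by unfold lon; group
      _ = (y * z * y⁻¹) * (lon y z * x) * x⁻¹ * z⁻¹ := by rw [hc]
      _ = 1 := by unfold lon; group
  · have e : z * (y * z * y⁻¹)⁻¹ = z * lon y z * z⁻¹ := by unfold lon; group
    rw [e, conj_pow_aux, hs]; group

theorem exists_hom {G : Type} [Group G] {p q : Fin 3 → ℤ} {u : Fin 3 → G}
    (h : Tri (u 0) (u 1) (u 2) (p 0) (q 0) (p 1) (q 1) (p 2) (q 2)) :
    ∃ f : SurgeryGroup p q →* G, ∀ i, f (PresentedGroup.of (i, true)) = u i := by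
  have hrel : ∀ w ∈ relators p q, FreeGroup.lift (img u) w = 1 := by
    rintro w ⟨i, hw⟩
    have key : (u (i + 2))⁻¹ * img u (i, false) * u (i + 2) * (u i)⁻¹ = 1 ∧
        img u (i + 2, false) * u i * (img u (i + 2, false))⁻¹ * (img u (i, false))⁻¹ = 1 ∧
        img u (i, false) ^ p i * (u (i + 2) * (img u (i + 2, false))⁻¹) ^ q i = 1 := by
      fin_cases i
      · exact hom_aux h.cx h.sx
      · exact hom_aux h.cy h.sy
      · exact hom_aux h.cz h.sz
    rcases hw with rfl | rfl | rfl
    · simpa [arc, img] using key.1
    · simpa [arc, img] using key.2.1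
    · simpa [arc, longitude, img] using key.2.2
  refine ⟨PresentedGroup.toGroup hrel, ?_⟩
  intro i
  rw [PresentedGroup.toGroup.of]
  rfl

/-- **Surgeries on the Borromean rings.** If the slopes lie in the region, the fundamental group
has a nontrivial homomorphism to the group of increasing homeomorphisms of the line. -/
theorem result (p q : Fin 3 → ℤ) (hq : ∀ i, q i ≠ 0) (hr : Region (fun i => (p i : ℚ) / q i)) :
    ∃ (f : SurgeryGroup p q →* (ℝ ≃o ℝ)) (γ : SurgeryGroup p q), f γ ≠ 1 := by
  -- the three cyclic numberings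
  have key : ∀ i : Fin 3, (∃ x y z : H, (x ≠ 1 ∨ z ≠ 1) ∧
      Tri x y z (p i) (q i) (p (i + 1)) (q (i + 1)) (p (i + 2)) (q (i + 2))) →
      ∃ (f : SurgeryGroup p q →* (ℝ ≃o ℝ)) (γ : SurgeryGroup p q), f γ ≠ 1 := by
    rintro i ⟨x, y, z, hne, ht⟩
    obtain ⟨u, hu, hu2⟩ : ∃ u : Fin 3 → H, (u i = x ∧ u (i + 2) = z) ∧
        Tri (u 0) (u 1) (u 2) (p 0) (q 0) (p 1) (q 1) (p 2) (q 2) := by
      fin_cases i
      · exact ⟨![x, y, z], ⟨rfl, rfl⟩, ht⟩
      · exact ⟨![z, x, y], ⟨rfl, rfl⟩, ht.rot.rot⟩
      · exact ⟨![y, z, x], ⟨rfl, rfl⟩, ht.rot⟩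
    obtain ⟨f, hf⟩ := exists_hom (p := p) (q := q) hu2
    rcases hne with h | h
    · exact ⟨f, PresentedGroup.of (i, true), by rw [hf, hu.1]; exact h⟩
    · exact ⟨f, PresentedGroup.of (i + 2, true), by rw [hf, hu.2]; exact h⟩
  obtain ⟨i, hi⟩ := hr
  apply key i
  have hT : T (1 : ℝ) ≠ 1 := by
    intro h
    have h1 : T (1 : ℝ) 0 = 0 := by rw [h]; rfl
    rw [T_apply] at h1
    norm_num at h1
  rcases hi with ⟨h1, h2, h3, h4⟩ | ⟨h1, h2, h3, h4⟩
  · by_cases h0 : (p (i + 2) : ℚ) / q (i + 2) = 0
    · have hp : p (i + 2) = 0 := by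
        rcases div_eq_zero_iff.mp h0 with h | h
        · exact_mod_cast h
        · exact absurd (by exact_mod_cast h) (hq (i + 2))
      refine ⟨1, 1, T 1, Or.inr hT, ?_⟩
      rw [hp]
      refine ⟨?_, ?_, ?_, ?_, ?_, ?_⟩ <;> simp [lon]
    · obtain ⟨x, y, z, hx, ht⟩ := exists_tri (hq i) (hq (i + 1)) (hq (i + 2))
        (by exact_mod_cast h1) (by exact_mod_cast h2) (by exact_mod_cast h3)
        (by exact_mod_cast h4) (by exact_mod_cast h0)
      exact ⟨x, y, z, Or.inl hx, ht⟩
  · by_cases h0 : (p (i + 2) : ℚ) / q (i + 2) = 0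
    · have hp : p (i + 2) = 0 := by
        rcases div_eq_zero_iff.mp h0 with h | h
        · exact_mod_cast h
        · exact absurd (by exact_mod_cast h) (hq (i + 2))
      refine ⟨1, 1, T 1, Or.inr hT, ?_⟩
      rw [hp]
      refine ⟨?_, ?_, ?_, ?_, ?_, ?_⟩ <;> simp [lon]
    · have e : ∀ j, ((-p j : ℤ) : ℚ) / q j = -((p j : ℚ) / q j) := by
        intro j; push_cast; ring
      obtain ⟨x, y, z, hx, ht⟩ := exists_tri (p0 := -p i) (p1 := -p (i + 1)) (p2 := -p (i + 2))
        (hq i) (hq (i + 1)) (hq (i + 2))
        (by have := e i; have h : (0 : ℚ) < ((-p i : ℤ) : ℚ) / q i := by rw [this]; linarith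
            exact_mod_cast h)
        (by have := e (i + 1)
            have h : (0 : ℚ) < ((-p (i + 1) : ℤ) : ℚ) / q (i + 1) := by rw [this]; linarith
            exact_mod_cast h)
        (by have e1 := e i; have e2 := e (i + 1)
            have h : ((-p i : ℤ) : ℚ) / q i * (((-p (i + 1) : ℤ) : ℚ) / q (i + 1)) < 4 := by
              rw [e1, e2, neg_mul_neg]; exact h3
            exact_mod_cast h)
        (by have := e (i + 2)
            have h : ((-p (i + 2) : ℤ) : ℚ) / q (i + 2) < 1 := by rw [this]; linarith
            exact_mod_cast h)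
        (by have := e (i + 2)
            have h : ((-p (i + 2) : ℤ) : ℚ) / q (i + 2) ≠ 0 := by
              rw [this]; exact neg_ne_zero.mpr h0
            exact_mod_cast h)
      have hm := ht.mirror
      rw [neg_neg, neg_neg, neg_neg] at hm
      exact ⟨x, y⁻¹, y * z * y⁻¹, Or.inl hx, hm⟩

end Pool.Agent.Results.MP_3d425c_gt.BorromeanSurgeryOrders
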