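import Pool.Graph.R_seed8.Results.MP_3d425c_gt.ChainLinks
import Pool.Agent.H828.QGen

set_option autoImplicit false

/-!
# Surgeries on chain links whose fundamental group acts on the line

`SurgeryGroup e p q` is the fundamental group of the closed 3-manifold obtained by surgery on a
chain link with `2 n` components, with slope `p i / q i` on the component `i` (the definition of
the library module `ChainLinks`, which shows that this group is not left-orderable if the slopes
lie in a region of L-spaces).  The diagram consists of `2 n` round circles on a ring, neighbours
are clasped, and `e` tells which of the clasps are positive; all numbers of positive clasps are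
allowed.

We show that for these links, and for slopes that are invariant under the reflection `i ↦ -i` (so
that there are `n + 1` free rational parameters), the group has a nontrivial homomorphism to the
left-orderable group of increasing homeomorphisms of the line, if half of the slopes in the middle
have absolute value less than `1`, and the slopes near each of the two fixed components `0` and
`n` of the reflection satisfy certain inequalities; the other half of the slopes in the middle is
arbitrary.  For instance the following is sufficient if the number of positive clasps is congruent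
to `n` modulo `2`: `n ≥ 8`, all slopes are positive, and the slopes of the odd components are less
than `1`.  If the slopes alternate between `r` and `s`, the manifold is then an `n`-fold cyclic
cover of a surgery on the Borromean rings.

Idea.  The homomorphism maps the meridians to elements `Z j`, `j ∈ ℤ`, such that `Z j` commutes
with `Z (j + 1)` and `Z j ^ p = (Z (j - 1) * Z (j + 1)) ^ q`.  They are found step by step: the
next element is determined by the two last ones and by the choice of a root.  Up to conjugation
the pairs `(Z (j - 1), Z j)` are in the middle `(z, g)`, `(g, z⁻¹)`, `(z⁻¹, g)`, `(g, z)`, … with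
`z` the translation by `π` and `g` the lift of a hyperbolic element of `PSL(2, R)`.  The roots of
`g` lead from `(z, g)` to `(g, z⁻¹ g ^ r)`, which is conjugate to `(g, z⁻¹)` by a homeomorphism that
is not a lift of a projective transformation; this works for all slopes `r`.  The roots of `z`
are rotations, and the product of `g` and a rotation by an angle in `(-π, π)` can be conjugate to
`g`; this works for `|r| < 1`.  At the ends the elements are translations, and `x k` is the ratio
of two successive ones.  Two such sequences with ends at the components `0` and `n` are joined,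
and continued by reflections; `σ` and `σ'` tell whether the reflections fix or invert the elements.
-/

namespace Pool.Agent.Results.MP_3d425c_gt.LongChainLinks

open Pool.Agent.H828.Lift Pool.Agent.H828.QLink
open Pool.Agent.H828.QGen (EndG full_gen)
open Pool.Agent.Results.MP_3d425c_gt.ChainLinks (SurgeryGroup)

/-- The slope of the component `j`, multiplied with the sign `δ`. -/
noncomputable def slope {N : ℕ} (p q : ZMod N → ℤ) (δ : ℤˣ) (j : ℤ) : ℝ :=
  (((δ : ℤ) * p (j : ZMod N) : ℤ) : ℝ) / (q (j : ZMod N) : ℤ)

/-- **Surgeries on long chain links.** -/
theorem result (n a b : ℕ) [NeZero (2 * n)] (e : ZMod (2 * n) → Bool)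
    (p q : ZMod (2 * n) → ℤ) (σ σ' δ δ' : ℤˣ)
    (he : (-1) ^ (Finset.univ.filter fun i => e i = true).card = σ * σ')
    (hq : ∀ i, q i ≠ 0) (hp' : ∀ i, p (-i) = p i) (hq' : ∀ i, q (-i) = q i)
    (hab : a + b + 2 ≤ n) (hpar : Even (n + a + b))
    (ha : EndG σ (fun j => slope p q δ j) a)
    (hb : EndG σ' (fun j => slope p q δ' ((n : ℤ) - j)) b)
    (hmid : ∀ j : ℕ, a < j → j + b < n → Even (j + a) → |slope p q 1 j| < 1) :
    ∃ f : SurgeryGroup e p q →* (ℝ ≃o ℝ),
      (∀ i, f (PresentedGroup.of (i, false)) = f (PresentedGroup.of (i, true))) ∧
        ∃ γ, f γ ≠ 1 := by
  obtain ⟨t, ht⟩ : ∃ t, n = a + b + 2 + 2 * t := by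
    obtain ⟨c, hc⟩ := hpar
    exact ⟨c - a - b - 1, by omega⟩
  have hcast : ∀ j : ℤ, ((j + 2 * n : ℤ) : ZMod (2 * n)) = (j : ZMod (2 * n)) := by
    intro j
    have h1 : ((2 * n : ℕ) : ZMod (2 * n)) = 0 := ZMod.natCast_self _
    push_cast at h1 ⊢
    rw [h1, add_zero]
  have hneg : ∀ j : ℤ, ((-j : ℤ) : ZMod (2 * n)) = -(j : ZMod (2 * n)) := by
    intro j; push_cast; rfl
  obtain ⟨F, h1, h2, h3⟩ := full_gen (p := fun j => p (j : ZMod (2 * n)))
    (q := fun j => q (j : ZMod (2 * n))) (n := n) (a := a) (b := b) (t := t) σ σ' δ δ' ht
    (fun j => hq _) (fun j => by show p _ = p _; rw [hneg, hp'])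
    (fun j => by show q _ = q _; rw [hneg, hq'])
    (fun j => by show p _ = p _; rw [hcast])
    (fun j => by show q _ = q _; rw [hcast]) ha hb
    (fun i hi => by
      have h4 := hmid (a + 2 * i + 2) (by omega) (by omega) ⟨a + i + 1, by ring⟩
      unfold slope at h4
      rw [Units.val_one, one_mul] at h4
      exact h4)
  exact exists_hom_gen (δ := 1) rfl he (fun j => by
    rw [Units.val_one, one_mul]; exact h1 j) h2 h3

end Pool.Agent.Results.MP_3d425c_gt.LongChainLinks
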